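import Mathlib
import Pool.Agent.Lib.helper11.Trunc

open Finset PowerSeries

namespace Pool.Agent.Results.MP_1a5b88_nt.Fails

noncomputable def t (m n : ℕ) : ℤ :=
  coeff n ((∏ i ∈ range (n + 1), (1 - X ^ (2 ^ i) : ℤ⟦X⟧)) ^ m)

open Pool.Agent.Lib.helper11.Trunc in
theorem result : ¬ ∀ k : ℕ, 2 ≤ k → ∃ A : ℕ → ℕ, StrictMono A ∧ A 0 = 0 ∧
    ∀ n j : ℕ, j < 2 ^ k →
      emultiplicity (2 : ℤ) (t (2 ^ k + 1) (2 ^ k * n + j)) = (A (padicValNat 2 (n + 1)) : ℕ∞) := by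
  intro h
  obtain ⟨A, -, -, hA⟩ := h 4 (by norm_num)
  have h1 := hA 31 0 (by norm_num)
  have h2 := hA 31 8 (by norm_num)
  rw [← h1] at h2
  let L : List (ℕ × ℤ) := (List.range 9).flatMap fun i => List.replicate 17 (2 ^ i, -1)
  have hL : (L.map fun p => (1 + C p.2 * X ^ p.1 : ℤ⟦X⟧)).prod * 1
      = (∏ i ∈ range 9, (1 - X ^ (2 ^ i) : ℤ⟦X⟧)) ^ 17 := by
    simp only [L, List.range_succ, List.range_zero, List.flatMap_append, List.map_append,
      List.prod_append, List.flatMap_cons, List.flatMap_nil, List.map_replicate,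
      List.prod_replicate, List.nil_append, List.append_nil, prod_range_succ, range_zero,
      prod_empty, map_neg, map_one, neg_mul, one_mul, ← sub_eq_add_neg, mul_pow, mul_one]
  have hT := Tr.bins L (Tr.one (R := ℤ) 505)
  rw [hL] at hT
  have hd : ∀ n, (X : ℤ⟦X⟧) ^ 505 ∣ (∏ i ∈ range (9 + n), (1 - X ^ (2 ^ i) : ℤ⟦X⟧))
      - ∏ i ∈ range 9, (1 - X ^ (2 ^ i) : ℤ⟦X⟧) := by
    intro n
    induction n with
    | zero => simp
    | succ n ih =>
      rw [← add_assoc, prod_range_succ, mul_sub, mul_one, sub_right_comm]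
      refine dvd_sub ih (Dvd.dvd.mul_left (pow_dvd_pow _ ?_) _)
      calc 505 ≤ 2 ^ 9 := by norm_num
        _ ≤ 2 ^ (9 + n) := Nat.pow_le_pow_right (by norm_num) (by omega)
  have e1 : t 17 496 = (bins 505 L [1]).getD 496 0 :=
    (hT.congr ((hd 488).trans (sub_dvd_pow_sub_pow _ _ 17))) 496 (by norm_num)
  have e2 : t 17 504 = (bins 505 L [1]).getD 504 0 :=
    (hT.congr ((hd 496).trans (sub_dvd_pow_sub_pow _ _ 17))) 504 (by norm_num)
  have hc : binsK 505 L [1]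
      (fun l => decide (¬ (2 : ℤ) ^ 19 ∣ l.getD 496 0 ∧ (2 : ℤ) ^ 19 ∣ l.getD 504 0)) = true := by
    decide +kernel
  rw [binsK_eq, decide_eq_true_iff, ← e1, ← e2] at hc
  have h3 := le_emultiplicity_of_pow_dvd hc.2
  have h4 : emultiplicity (2 : ℤ) (t 17 504) = emultiplicity (2 : ℤ) (t 17 496) := h2
  rw [h4] at h3
  exact hc.1 (pow_dvd_of_le_emultiplicity h3)

end Pool.Agent.Results.MP_1a5b88_nt.Fails
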